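import Pool.Agent.U731.SC.A
import Pool.Agent.W5h49.EC.FinalFam

set_option autoImplicit false
set_option linter.unusedSectionVars false

/-! Families with differentials in a given set; the stretch. -/

open scoped ContDiff Topology

namespace Pool.Agent.U731.SC

open Pool.Agent.W71.EC Pool.Agent.W5h83.HG Pool.Agent.U530.HG

variable {n : ℕ} {C : Type} [TopologicalSpace C] [CompactSpace C]

theorem rel_mono {p q : C(C, SympCt n)} {A B : Set C} (h : p.HomotopicRel q A) (hBA : B ⊆ A) :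
    p.HomotopicRel q B := by
  obtain ⟨H⟩ := h
  exact ⟨⟨H.toHomotopy, fun t c hc => H.prop' t c (hBA hc)⟩⟩

theorem rel_eq {p q : C(C, SympCt n)} {A : Set C} (h : p.HomotopicRel q A) {c : C} (hc : c ∈ A) :
    p c = q c := by
  obtain ⟨H⟩ := h
  exact H.fst_eq_snd hc

/-- the family is homotopic relative to `A` to one whose differentials are in `P` -/
def Rep (P : Set (R2 n →L[ℝ] R2 n)) (A : Set C) (f : C(C, SympCt n)) : Prop :=
  ∃ g : C(C, SympCt n), f.HomotopicRel g A ∧ ∀ c x, fderiv ℝ (g c).toEquiv x ∈ P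

theorem rep_mul {P : Set (R2 n →L[ℝ] R2 n)} {A : Set C} {f g : C(C, SympCt n)}
    (hf : ∀ c ∈ A, f c = one) (hg : ∀ c ∈ A, g c = one) (h1 : Rep P A f) (h2 : Rep P A g) :
    Rep P A (mulC f g) := by
  obtain ⟨f1, e1, p1⟩ := h1
  obtain ⟨g1, e2, p2⟩ := h2
  rcases Nat.eq_zero_or_pos n with hn | hn
  · subst hn
    refine ⟨mulC f1 g1, mul_homotopic e1 e2, fun c x => ?_⟩
    have : fderiv ℝ (mulC f1 g1 c).toEquiv x = fderiv ℝ (f1 c).toEquiv x :=
      ContinuousLinearMap.ext fun v => Subsingleton.elim _ _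
    rw [this]
    exact p1 c x
  have : Nonempty (Fin n) := ⟨⟨0, hn⟩⟩
  obtain ⟨a, ha⟩ := NormedSpace.exists_lt_norm ℝ (R2 n) 2
  obtain ⟨f2, e3, s1, -, d1⟩ := exists_small_family f1 (Metric.ball 0 1) Metric.isOpen_ball
    ⟨0, Metric.mem_ball_self one_pos⟩ 1 one_pos
  obtain ⟨g2, e4, s2, -, d2⟩ := exists_small_family g1 (Metric.ball a 1) Metric.isOpen_ball
    ⟨a, Metric.mem_ball_self one_pos⟩ 1 one_pos
  have hdisj : Disjoint (Metric.ball (0 : R2 n) 1) (Metric.ball a 1) := by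
    apply Metric.ball_disjoint_ball
    rw [dist_zero_left]
    linarith
  have k1 : f.HomotopicRel f2 A := e1.trans (rel_mono e3 fun c hc => by
    rw [Set.mem_ofPred_eq, ← rel_eq e1 hc, hf c hc])
  have k2 : g.HomotopicRel g2 A := e2.trans (rel_mono e4 fun c hc => by
    rw [Set.mem_ofPred_eq, ← rel_eq e2 hc, hg c hc])
  refine ⟨mulC f2 g2, mul_homotopic k1 k2, fun c x => ?_⟩
  have q1 : Good (Metric.ball (0 : R2 n) 1) (f2 c) :=
    good_ball one_pos (Pool.Agent.W71.EC.supp_mono Metric.ball_subset_closedBall (s1 c))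
  have q2 : Good (Metric.ball a 1) (g2 c) :=
    good_ball one_pos (Pool.Agent.W71.EC.supp_mono Metric.ball_subset_closedBall (s2 c))
  change fderiv ℝ (comp (f2 c) (g2 c)).toEquiv x ∈ P
  by_cases hx : x ∈ Metric.ball (0 : R2 n) 1
  · rw [comp_fd_left q1 q2 fun h => Set.disjoint_left.1 hdisj hx h]
    obtain ⟨y, hy⟩ := d1 c x
    rw [hy]
    exact p1 c y
  · rw [comp_fd_right q1 q2 hdisj hx]
    obtain ⟨y, hy⟩ := d2 c x
    rw [hy]
    exact p2 c y

theorem inv_homotopic {f f' : C(C, SympCt n)} {A : Set C} (h1 : f.HomotopicRel f' A) :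
    (invC f).HomotopicRel (invC f') A := by
  obtain ⟨F⟩ := h1
  refine ⟨⟨⟨⟨fun z => inv (F z), continuous_inv_family (C := unitInterval × C)
    F.toContinuousMap⟩, fun c => ?_, fun c => ?_⟩, ?_⟩⟩
  · change inv (F (0, c)) = _
    rw [F.apply_zero]
    rfl
  · change inv (F (1, c)) = _
    rw [F.apply_one]
    rfl
  · intro t c hc
    change inv (F (t, c)) = _
    rw [F.eq_fst t hc]
    rfl

/-- the inverses of the symplectic maps in `P` -/
def InvSet (P : Set (R2 n →L[ℝ] R2 n)) : Set (R2 n →L[ℝ] R2 n) :=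
  {S | ∃ T ∈ P, (∀ u v, omega (T u) (T v) = omega u v) ∧ (∀ v, S (T v) = v) ∧ ∀ v, T (S v) = v}

theorem rep_inv {P : Set (R2 n →L[ℝ] R2 n)} {A : Set C} {f : C(C, SympCt n)}
    (h : Rep P A f) : Rep (InvSet P) A (invC f) := by
  obtain ⟨g, e, p⟩ := h
  refine ⟨invC g, inv_homotopic e, fun c y => ?_⟩
  obtain ⟨x, rfl⟩ := (g c).toEquiv.surjective y
  refine ⟨fderiv ℝ (g c).toEquiv x, p c x, (g c).symplectic x, fun v => ?_, fun v => ?_⟩
  · change fderiv ℝ (g c).toEquiv.symm ((g c).toEquiv x) (fderiv ℝ (g c).toEquiv x v) = v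
    have h4 := inv_left (f := (g c).toEquiv.symm) (g c).smooth_symm (g c).smooth x v
    rw [Equiv.symm_symm] at h4
    exact h4
  · change fderiv ℝ (g c).toEquiv x (fderiv ℝ (g c).toEquiv.symm ((g c).toEquiv x) v) = v
    have h5 := inv_left (g c).smooth (g c).smooth_symm ((g c).toEquiv x) v
    rwa [Equiv.symm_apply_apply] at h5

theorem rep_mono {P Q : Set (R2 n →L[ℝ] R2 n)} {A : Set C} {f : C(C, SympCt n)} (hPQ : P ⊆ Q)
    (h : Rep P A f) : Rep Q A f := by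
  obtain ⟨g, e, p⟩ := h
  exact ⟨g, e, fun c x => hPQ (p c x)⟩

/-- the square of the Euclidean norm -/
def sqn (v : R2 n) : ℝ := ∑ i, (v.1 i ^ 2 + v.2 i ^ 2)

theorem sqn_nonneg (v : R2 n) : 0 ≤ sqn v := Finset.sum_nonneg fun i _ => by positivity

/-- maps of stretch at most `K` -/
def PK (n : ℕ) (K : ℝ) : Set (R2 n →L[ℝ] R2 n) := {T | ∀ v, sqn (T v) ≤ K ^ 2 * sqn v}

theorem omega_sq (u w : R2 n) : omega u w ^ 2 ≤ sqn u * sqn w := by
  have h := Finset.sum_mul_sq_le_sq_mul_sq Finset.univ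
    (fun i : Fin n ⊕ Fin n => Sum.elim (fun i => u.1 i) (fun i => -u.2 i) i)
    (fun i : Fin n ⊕ Fin n => Sum.elim (fun i => w.2 i) (fun i => w.1 i) i)
  simp only [Fintype.sum_sum_type, Sum.elim_inl, Sum.elim_inr] at h
  have e1 : omega u w = ∑ i, u.1 i * w.2 i + ∑ i, -u.2 i * w.1 i := by
    unfold omega
    rw [← Finset.sum_add_distrib]
    exact Finset.sum_congr rfl fun i _ => by ring
  have e2 : sqn u = ∑ i, u.1 i ^ 2 + ∑ i, (-u.2 i) ^ 2 := by
    unfold sqn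
    rw [← Finset.sum_add_distrib]
    exact Finset.sum_congr rfl fun i _ => by ring
  have e3 : sqn w = ∑ i, w.2 i ^ 2 + ∑ i, w.1 i ^ 2 := by
    unfold sqn
    rw [← Finset.sum_add_distrib]
    exact Finset.sum_congr rfl fun i _ => by ring
  rw [e1, e2, e3]
  exact h

theorem inv_PK (K : ℝ) : InvSet (PK n K) ⊆ PK n K := by
  rintro S ⟨T, hT, hs, h1, h2⟩ v
  -- `v = T u` with `u = S v`
  obtain ⟨u, hu⟩ : ∃ u, u = S v := ⟨_, rfl⟩
  have hv : v = T u := by rw [hu, h2]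
  rw [← hu]
  set w : R2 n := (-u.2, u.1) with hw
  have e1 : omega u w = sqn u := by
    unfold sqn omega
    refine Finset.sum_congr rfl fun i _ => ?_
    simp only [hw, Pi.neg_apply]
    ring
  have e2 : sqn w = sqn u := by
    unfold sqn
    refine Finset.sum_congr rfl fun i _ => ?_
    simp only [hw, Pi.neg_apply]
    ring
  have h3 := omega_sq (T u) (T w)
  rw [hs, e1] at h3
  have h4 := hT w
  rw [e2] at h4
  have h5 := sqn_nonneg (T u)
  have h6 := sqn_nonneg u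
  rw [hv]
  by_cases h0 : sqn u = 0
  · rw [h0]; positivity
  have h7 : 0 < sqn u := lt_of_le_of_ne h6 (Ne.symm h0)
  have h8 : sqn u ^ 2 ≤ sqn (T u) * (K ^ 2 * sqn u) :=
    h3.trans (mul_le_mul_of_nonneg_left h4 h5)
  have h9 : sqn u * sqn u ≤ (K ^ 2 * sqn (T u)) * sqn u := by nlinarith
  exact le_of_mul_le_mul_right h9 h7

/-- the gap for the stretch -/
theorem stretch_gap (n : ℕ) : ∃ ε : ℝ, 0 < ε ∧ ∀ (C : Type) [TopologicalSpace C] [CompactSpace C]
    (A : Set C) (f : C(C, SympCt n)), (∀ c ∈ A, f c = one) → Rep (PK n (1 + ε)) A f →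
      f.HomotopicRel (ContinuousMap.const C one) A := by
  obtain ⟨ε, hε, h⟩ := Pool.Agent.W5h49.EC.near_fam (Pool.Agent.W5h49.EC.tasks n)
  obtain ⟨δ, hδ, hδ2⟩ : ∃ δ : ℝ, 0 < δ ∧ (1 + δ) ^ 2 ≤ 1 + ε := by
    refine ⟨min 1 (ε / 3), by positivity, ?_⟩
    have h1 := min_le_left (1 : ℝ) (ε / 3)
    have h2 := min_le_right (1 : ℝ) (ε / 3)
    have h3 : 0 < min (1 : ℝ) (ε / 3) := by positivity
    nlinarith
  refine ⟨δ, hδ, fun C _ _ A f hf hr => ?_⟩
  obtain ⟨g, e, p⟩ := hr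
  refine e.trans (rel_mono (h C g (ContinuousMap.const C one) fun c x v => ?_) fun c hc => ?_)
  · have h1 := p c x v
    have h2 : fderiv ℝ (one : SympCt n).toEquiv x v = v := one_fderiv x v
    change sqn (fderiv ℝ (g c).toEquiv x v) ≤ (1 + ε) * sqn (fderiv ℝ (one : SympCt n).toEquiv x v)
    rw [h2]
    exact h1.trans (mul_le_mul_of_nonneg_right hδ2 (sqn_nonneg v))
  · change g c = one
    rw [← rel_eq e hc]
    exact hf c hc

/-- every family has finite stretch -/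
theorem exists_stretch (f : C(C, SympCt n)) (A : Set C) : ∃ K : ℝ, 1 ≤ K ∧ Rep (PK n K) A f := by
  obtain ⟨r, hr⟩ := supp_unif (isCompact_range f.continuous)
  have hcont : Continuous (fun z : C × R2 n => fderiv ℝ (f z.1).toEquiv z.2) :=
    continuous_fderiv_family (P := C) f.continuous
  obtain ⟨M, hM⟩ := (isCompact_univ.prod (isCompact_closedBall (0 : R2 n) r)).bddAbove_image
    hcont.norm.continuousOn
  have hb : ∀ c x, ‖fderiv ℝ (f c).toEquiv x‖ ≤ max M 1 := by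
    intro c x
    by_cases hx : x ∈ Metric.closedBall (0 : R2 n) r
    · exact (hM ⟨(c, x), ⟨trivial, hx⟩, rfl⟩).trans (le_max_left _ _)
    · have h1 : ((f c).toEquiv : R2 n → R2 n) =ᶠ[𝓝 x] id := by
        filter_upwards [Metric.isClosed_closedBall.isOpen_compl.mem_nhds hx] with y hy
        exact hr _ ⟨c, rfl⟩ y hy
      rw [h1.fderiv_eq, fderiv_id]
      exact ContinuousLinearMap.norm_id_le.trans (le_max_right _ _)
  set M' := max M 1 with hM'
  have hM1 : 1 ≤ M' := le_max_right _ _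
  have s1 : ∀ v : R2 n, ‖v‖ ^ 2 ≤ sqn v := by
    intro v
    have h0 := sqn_nonneg v
    have h1 : ∀ i, |v.1 i| ≤ √(sqn v) := fun i => by
      apply Real.abs_le_sqrt
      have := Finset.single_le_sum (f := fun i => v.1 i ^ 2 + v.2 i ^ 2)
        (fun i _ => by positivity) (Finset.mem_univ i)
      unfold sqn
      nlinarith [sq_nonneg (v.2 i)]
    have h2 : ∀ i, |v.2 i| ≤ √(sqn v) := fun i => by
      apply Real.abs_le_sqrt
      have := Finset.single_le_sum (f := fun i => v.1 i ^ 2 + v.2 i ^ 2)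
        (fun i _ => by positivity) (Finset.mem_univ i)
      unfold sqn
      nlinarith [sq_nonneg (v.1 i)]
    have h3 : ‖v‖ ≤ √(sqn v) := by
      rw [Prod.norm_def, max_le_iff]
      exact ⟨(pi_norm_le_iff_of_nonneg (Real.sqrt_nonneg _)).2 fun i => by
          rw [Real.norm_eq_abs]; exact h1 i,
        (pi_norm_le_iff_of_nonneg (Real.sqrt_nonneg _)).2 fun i => by
          rw [Real.norm_eq_abs]; exact h2 i⟩
    calc ‖v‖ ^ 2 ≤ √(sqn v) ^ 2 := by gcongr
      _ = sqn v := Real.sq_sqrt h0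
  have s2 : ∀ v : R2 n, sqn v ≤ 2 * n * ‖v‖ ^ 2 := by
    intro v
    have h : ∀ i : Fin n, v.1 i ^ 2 + v.2 i ^ 2 ≤ 2 * ‖v‖ ^ 2 := by
      intro i
      have a1 : |v.1 i| ≤ ‖v‖ := (norm_le_pi_norm v.1 i).trans (norm_fst_le v)
      have a2 : |v.2 i| ≤ ‖v‖ := (norm_le_pi_norm v.2 i).trans (norm_snd_le v)
      have b1 : v.1 i ^ 2 ≤ ‖v‖ ^ 2 := by rw [← sq_abs]; gcongr
      have b2 : v.2 i ^ 2 ≤ ‖v‖ ^ 2 := by rw [← sq_abs]; gcongr
      linarith
    calc sqn v ≤ ∑ _i : Fin n, 2 * ‖v‖ ^ 2 := Finset.sum_le_sum fun i _ => h i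
      _ = 2 * n * ‖v‖ ^ 2 := by
        rw [Finset.sum_const, Finset.card_univ, Fintype.card_fin, nsmul_eq_mul]; ring
  refine ⟨(2 * n + 1) * M', ?_, f, ContinuousMap.HomotopicRel.refl _, fun c x v => ?_⟩
  · have : (0 : ℝ) ≤ n := Nat.cast_nonneg n
    nlinarith
  · have h1 : ‖fderiv ℝ (f c).toEquiv x v‖ ≤ M' * ‖v‖ :=
      ((fderiv ℝ (f c).toEquiv x).le_opNorm v).trans
        (mul_le_mul_of_nonneg_right (hb c x) (norm_nonneg v))
    have h2 : ‖fderiv ℝ (f c).toEquiv x v‖ ^ 2 ≤ M' ^ 2 * ‖v‖ ^ 2 := by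
      rw [← mul_pow]; gcongr
    have h3 := s2 (fderiv ℝ (f c).toEquiv x v)
    have h4 := s1 v
    have h5 : (0 : ℝ) ≤ n := Nat.cast_nonneg n
    calc sqn (fderiv ℝ (f c).toEquiv x v) ≤ 2 * n * (M' ^ 2 * ‖v‖ ^ 2) :=
          h3.trans (mul_le_mul_of_nonneg_left h2 (by positivity))
      _ ≤ 2 * n * (M' ^ 2 * sqn v) := by gcongr
      _ ≤ ((2 * n + 1) * M') ^ 2 * sqn v := by
        have h6 := sqn_nonneg v
        have h7 : 2 * (n : ℝ) * M' ^ 2 ≤ ((2 * n + 1) * M') ^ 2 := by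
          rw [mul_pow]
          have : 2 * (n : ℝ) ≤ (2 * n + 1) ^ 2 := by nlinarith
          gcongr
        calc 2 * (n : ℝ) * (M' ^ 2 * sqn v) = (2 * n * M' ^ 2) * sqn v := by ring
          _ ≤ _ := by gcongr

end Pool.Agent.U731.SC
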