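import Mathlib
import Pool.Agent.U530.HG.Comm

set_option autoImplicit false
set_option linter.unusedSectionVars false

/-! Products of compactly supported symplectomorphisms with disjoint supports. -/

open scoped ContDiff Topology

namespace Pool.Agent.U731.SC

open Pool.Agent.W71.EC Pool.Agent.W5h83.HG Pool.Agent.U530.HG

variable {n : ℕ}

/-- the identity off `U`, with differential the identity off `U` -/
def Good (U : Set (R2 n)) (φ : SympCt n) : Prop :=
  φ ∈ supportedIn U ∧ ∀ z, z ∉ U → fderiv ℝ φ.toEquiv z = ContinuousLinearMap.id ℝ (R2 n)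

/-- the differential is Lipschitz with constant `L` -/
def DL (L : ℝ) (φ : SympCt n) : Prop :=
  ∀ x y, ‖fderiv ℝ φ.toEquiv x - fderiv ℝ φ.toEquiv y‖ ≤ L * ‖x - y‖

theorem cont_fderiv (φ : SympCt n) : Continuous (fderiv ℝ φ.toEquiv) :=
  φ.smooth.continuous_fderiv (by simp)

theorem good_ball {φ : SympCt n} {a : R2 n} {r : ℝ} (hr : 0 < r)
    (h : φ ∈ supportedIn (Metric.closedBall a r)) : Good (Metric.ball a r) φ := by
  have hcl : ∀ z, z ∉ Metric.ball a r → z ∈ closure ((Metric.closedBall a r)ᶜ) := by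
    intro z hz
    rw [closure_compl, interior_closedBall a hr.ne']
    exact hz
  refine ⟨fun z hz => ?_, fun z hz => ?_⟩
  · have hc : IsClosed {z | φ.toEquiv z = z} :=
      isClosed_eq φ.smooth.continuous continuous_id
    exact (closure_minimal (fun w hw => h w hw) hc) (hcl z hz)
  · have hc : IsClosed {z | fderiv ℝ φ.toEquiv z = ContinuousLinearMap.id ℝ (R2 n)} :=
      isClosed_eq (cont_fderiv φ) continuous_const
    refine (closure_minimal (fun w hw => ?_) hc) (hcl z hz)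
    change fderiv ℝ φ.toEquiv w = _
    have h1 : (φ.toEquiv : R2 n → R2 n) =ᶠ[𝓝 w] id := by
      filter_upwards [Metric.isClosed_closedBall.isOpen_compl.mem_nhds hw] with y hy
      exact h y hy
    rw [h1.fderiv_eq, fderiv_id]

theorem map_mem {θ : SympCt n} {K : Set (R2 n)} (hθ : θ ∈ supportedIn K) {x : R2 n}
    (hx : x ∈ K) : θ.toEquiv x ∈ K := by
  by_contra h
  have h1 := hθ _ h
  have h2 := θ.toEquiv.injective h1
  rw [h2] at h
  exact h hx

theorem comp_fd (θ ψ : SympCt n) (x : R2 n) : fderiv ℝ (comp θ ψ).toEquiv x =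
    (fderiv ℝ θ.toEquiv (ψ.toEquiv x)).comp (fderiv ℝ ψ.toEquiv x) :=
  ContinuousLinearMap.ext fun v => comp_fderiv θ ψ x v

theorem comp_fd_right {φ ψ : SympCt n} {U : Set (R2 n)} {V : Set (R2 n)} (hφ : Good U φ)
    (hψ : Good V ψ) (hd : Disjoint U V) {z : R2 n} (hz : z ∉ U) :
    fderiv ℝ (comp φ ψ).toEquiv z = fderiv ℝ ψ.toEquiv z := by
  have h1 : ψ.toEquiv z ∉ U := by
    by_cases hv : z ∈ V
    · exact fun h => Set.disjoint_left.1 hd h (map_mem hψ.1 hv)
    · rw [hψ.1 z hv]; exact hz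
  rw [comp_fd, hφ.2 _ h1]
  exact ContinuousLinearMap.id_comp _

theorem comp_fd_left {φ ψ : SympCt n} {U : Set (R2 n)} {V : Set (R2 n)} (hφ : Good U φ)
    (hψ : Good V ψ) {z : R2 n} (hz : z ∉ V) :
    fderiv ℝ (comp φ ψ).toEquiv z = fderiv ℝ φ.toEquiv z := by
  rw [comp_fd, hψ.2 _ hz, hψ.1 _ hz]
  exact ContinuousLinearMap.comp_id _

theorem comp_good {φ ψ : SympCt n} {U V : Set (R2 n)} (hφ : Good U φ)
    (hψ : Good V ψ) (hd : Disjoint U V) : Good (U ∪ V) (comp φ ψ) := by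
  refine ⟨fun z hz => ?_, fun z hz => ?_⟩
  · rw [Set.mem_union, not_or] at hz
    change φ.toEquiv (ψ.toEquiv z) = z
    rw [hψ.1 z hz.2, hφ.1 z hz.1]
  · rw [Set.mem_union, not_or] at hz
    rw [comp_fd_left hφ hψ hz.2, hφ.2 z hz.1]

/-- a segment which meets two disjoint open sets is not covered by them -/
theorem exists_between {U V : Set (R2 n)} (hU : IsOpen U) (hV : IsOpen V) (hd : Disjoint U V)
    {x y : R2 n} (hx : x ∈ U) (hy : y ∈ V) :
    ∃ z, z ∉ U ∧ z ∉ V ∧ ‖x - z‖ + ‖z - y‖ = ‖x - y‖ := by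
  have hp : IsPreconnected (segment ℝ x y) := (convex_segment x y).isPreconnected
  by_contra hcon
  push Not at hcon
  have hcov : segment ℝ x y ⊆ U ∪ V := by
    intro z hz
    by_contra h
    rw [Set.mem_union, not_or] at h
    refine hcon z h.1 h.2 ?_
    have := dist_add_dist_of_mem_segment hz
    rwa [dist_eq_norm, dist_eq_norm, dist_eq_norm] at this
  obtain ⟨w, hw, hwU, hwV⟩ := hp U V hU hV hcov ⟨x, left_mem_segment ℝ x y, hx⟩
    ⟨y, right_mem_segment ℝ x y, hy⟩
  exact Set.disjoint_left.1 hd hwU hwV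

theorem comp_DL {φ ψ : SympCt n} {U V : Set (R2 n)} (hU : IsOpen U) (hV : IsOpen V)
    (hφ : Good U φ) (hψ : Good V ψ) (hd : Disjoint U V) {L : ℝ} (h1 : DL L φ) (h2 : DL L ψ) :
    DL L (comp φ ψ) := by
  have key : ∀ x y, x ∈ U → y ∈ V →
      ‖fderiv ℝ (comp φ ψ).toEquiv x - fderiv ℝ (comp φ ψ).toEquiv y‖ ≤ L * ‖x - y‖ := by
    intro x y hx hy
    obtain ⟨z, hzU, hzV, hz⟩ := exists_between hU hV hd hx hy
    have hxV : x ∉ V := fun h => Set.disjoint_left.1 hd hx h
    have hyU : y ∉ U := fun h => Set.disjoint_left.1 hd h hy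
    have e1 := h1 x z
    have e2 := h2 z y
    rw [hφ.2 z hzU] at e1
    rw [hψ.2 z hzV] at e2
    rw [comp_fd_left hφ hψ hxV, comp_fd_right hφ hψ hd hyU, ← hz, mul_add]
    calc ‖fderiv ℝ φ.toEquiv x - fderiv ℝ ψ.toEquiv y‖
        = ‖(fderiv ℝ φ.toEquiv x - ContinuousLinearMap.id ℝ (R2 n))
          + (ContinuousLinearMap.id ℝ (R2 n) - fderiv ℝ ψ.toEquiv y)‖ := by
          congr 1; abel
      _ ≤ _ := norm_add_le _ _
      _ ≤ _ := add_le_add e1 e2
  intro x y
  by_cases hxU : x ∈ U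
  · by_cases hyV : y ∈ V
    · exact key x y hxU hyV
    · rw [comp_fd_left hφ hψ hyV, comp_fd_left hφ hψ fun h => Set.disjoint_left.1 hd hxU h]
      exact h1 x y
  · by_cases hyU : y ∈ U
    · by_cases hxV : x ∈ V
      · have := key y x hyU hxV
        rwa [norm_sub_rev, norm_sub_rev y x] at this
      · rw [comp_fd_left hφ hψ hxV, comp_fd_left hφ hψ fun h => Set.disjoint_left.1 hd hyU h]
        exact h1 x y
    · rw [comp_fd_right hφ hψ hd hxU, comp_fd_right hφ hψ hd hyU]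
      exact h2 x y

theorem conj_DL {φ : SympCt n} {L : ℝ} (h : DL L φ) (a : R2 n) {l : ℝ} (hl : 0 < l) :
    DL (L / l) (conjH φ a l hl.ne') := by
  intro x y
  change ‖fderiv ℝ ((homo a l hl.ne').symm.trans (φ.toEquiv.trans (homo a l hl.ne'))) x
    - fderiv ℝ ((homo a l hl.ne').symm.trans (φ.toEquiv.trans (homo a l hl.ne'))) y‖ ≤ _
  rw [conj_fderiv, conj_fderiv]
  refine (h _ _).trans (le_of_eq ?_)
  rw [← smul_sub, norm_smul, norm_inv, Real.norm_eq_abs, abs_of_pos hl]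
  have : x - a - (y - a) = x - y := by abel
  rw [this]
  ring

theorem joined_comp {φ φ' ψ ψ' : SympCt n} (h1 : Joined φ φ') (h2 : Joined ψ ψ') :
    Joined (comp φ ψ) (comp φ' ψ') := by
  obtain ⟨f⟩ := h1
  obtain ⟨g⟩ := h2
  have hc := continuous_comp_family (C := unitInterval) f.toContinuousMap g.toContinuousMap
  refine ⟨⟨⟨_, hc⟩, ?_, ?_⟩⟩
  · change comp (f 0) (g 0) = _
    rw [f.source, g.source]
  · change comp (f 1) (g 1) = _
    rw [f.target, g.target]

end Pool.Agent.U731.SC
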