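import Pool.Agent.U731.SC.A

set_option autoImplicit false
set_option linter.unusedSectionVars false

/-! Finitely many isotopy classes with bounded second derivative; the gap. -/

open scoped ContDiff Topology

namespace Pool.Agent.U731.SC

open Pool.Agent.W71.EC Pool.Agent.W5h83.HG Pool.Agent.U530.HG

variable {n : ℕ}

theorem near_id {φ : SympCt n} {L : ℝ} (hL : 0 ≤ L)
    (h : φ ∈ supportedIn (Metric.closedBall (0 : R2 n) 1)) (hD : DL L φ) (z : R2 n) :
    ‖fderiv ℝ φ.toEquiv z - ContinuousLinearMap.id ℝ (R2 n)‖ ≤ L := by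
  rcases Nat.eq_zero_or_pos n with hn | hn
  · subst hn
    have : fderiv ℝ φ.toEquiv z - ContinuousLinearMap.id ℝ (R2 0) = 0 :=
      ContinuousLinearMap.ext fun v => Subsingleton.elim _ _
    rw [this, norm_zero]
    exact hL
  have : Nonempty (Fin n) := ⟨⟨0, hn⟩⟩
  have hg := good_ball one_pos h
  by_cases hz : z ∈ Metric.ball (0 : R2 n) 1
  · obtain ⟨w, hw, hzw⟩ : ∃ w : R2 n, ‖w‖ = 1 ∧ ‖z - w‖ ≤ 1 := by
      by_cases hz0 : z = 0
      · obtain ⟨e, he⟩ := exists_norm_eq (R2 n) zero_le_one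
        exact ⟨e, he, by rw [hz0, zero_sub, norm_neg, he]⟩
      · have hn0 : ‖z‖ ≠ 0 := norm_ne_zero_iff.2 hz0
        have hp : 0 < ‖z‖ := norm_pos_iff.2 hz0
        refine ⟨‖z‖⁻¹ • z, ?_, ?_⟩
        · rw [norm_smul, norm_inv, norm_norm, inv_mul_cancel₀ hn0]
        · have e : z - ‖z‖⁻¹ • z = (1 - ‖z‖⁻¹) • z := by rw [sub_smul, one_smul]
          rw [e, norm_smul, Real.norm_eq_abs]
          have h1 : ‖z‖ < 1 := by simpa using hz
          have h2 : 1 ≤ ‖z‖⁻¹ := (one_le_inv₀ hp).2 h1.le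
          rw [abs_of_nonpos (by linarith), neg_sub, sub_mul, inv_mul_cancel₀ hn0, one_mul]
          linarith
    have hw' : w ∉ Metric.ball (0 : R2 n) 1 := by
      rw [mem_ball_zero_iff, hw]; exact lt_irrefl _
    have h1 := hD z w
    rw [hg.2 w hw'] at h1
    refine h1.trans ?_
    nlinarith
  · rw [hg.2 z hz, sub_self, norm_zero]
    exact hL

theorem joined_of_small {φ : SympCt n} {L : ℝ} (hL : 0 ≤ L) (hL1 : L < 1)
    (h : φ ∈ supportedIn (Metric.closedBall (0 : R2 n) 1)) (hD : DL L φ) : Joined one φ := by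
  have hN : NoNeg φ := by
    intro x v hv c hc he
    have h1 := near_id hL h hD x
    have h2 := (fderiv ℝ φ.toEquiv x - ContinuousLinearMap.id ℝ (R2 n)).le_opNorm v
    have h3 : (fderiv ℝ φ.toEquiv x - ContinuousLinearMap.id ℝ (R2 n)) v = -((c + 1) • v) := by
      change fderiv ℝ φ.toEquiv x v - v = _
      rw [he, add_smul, one_smul]
      abel
    rw [h3, norm_neg, norm_smul, Real.norm_eq_abs, abs_of_pos (by linarith)] at h2
    have h4 : 0 < ‖v‖ := norm_pos_iff.2 hv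
    nlinarith
  refine (joined_one_iff φ).2 ⟨[φ], fun θ hθ => ?_, ?_⟩
  · rw [List.mem_singleton] at hθ
    rw [hθ]; exact hN
  · exact SympCt.ext' fun _ => rfl

/-- the sum of the squares -/
def nq (v : R2 n) : ℝ := ∑ i, (v.1 i ^ 2 + v.2 i ^ 2)

theorem norm_sq_le (v : R2 n) : ‖v‖ ^ 2 ≤ nq v := by
  have h0 : 0 ≤ nq v := Finset.sum_nonneg fun i _ => by positivity
  have h1 : ∀ i, |v.1 i| ≤ √(nq v) := fun i => by
    apply Real.abs_le_sqrt
    have := Finset.single_le_sum (f := fun i => v.1 i ^ 2 + v.2 i ^ 2)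
      (fun i _ => by positivity) (Finset.mem_univ i)
    unfold nq
    nlinarith [sq_nonneg (v.2 i)]
  have h2 : ∀ i, |v.2 i| ≤ √(nq v) := fun i => by
    apply Real.abs_le_sqrt
    have := Finset.single_le_sum (f := fun i => v.1 i ^ 2 + v.2 i ^ 2)
      (fun i _ => by positivity) (Finset.mem_univ i)
    unfold nq
    nlinarith [sq_nonneg (v.1 i)]
  have h3 : ‖v‖ ≤ √(nq v) := by
    rw [Prod.norm_def, max_le_iff]
    constructor
    · exact (pi_norm_le_iff_of_nonneg (Real.sqrt_nonneg _)).2 fun i => by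
        rw [Real.norm_eq_abs]; exact h1 i
    · exact (pi_norm_le_iff_of_nonneg (Real.sqrt_nonneg _)).2 fun i => by
        rw [Real.norm_eq_abs]; exact h2 i
  calc ‖v‖ ^ 2 ≤ √(nq v) ^ 2 := by gcongr
    _ = nq v := Real.sq_sqrt h0

theorem omega_le (u w : R2 n) : omega u w ≤ 2 * n * (‖u‖ * ‖w‖) := by
  have h : ∀ i : Fin n, u.1 i * w.2 i - u.2 i * w.1 i ≤ 2 * (‖u‖ * ‖w‖) := by
    intro i
    have a1 : |u.1 i| ≤ ‖u‖ := (norm_le_pi_norm u.1 i).trans (norm_fst_le u)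
    have a2 : |u.2 i| ≤ ‖u‖ := (norm_le_pi_norm u.2 i).trans (norm_snd_le u)
    have b1 : |w.1 i| ≤ ‖w‖ := (norm_le_pi_norm w.1 i).trans (norm_fst_le w)
    have b2 : |w.2 i| ≤ ‖w‖ := (norm_le_pi_norm w.2 i).trans (norm_snd_le w)
    have c1 : u.1 i * w.2 i ≤ ‖u‖ * ‖w‖ := by
      refine (le_abs_self _).trans ?_
      rw [abs_mul]
      gcongr
    have c2 : -(u.2 i * w.1 i) ≤ ‖u‖ * ‖w‖ := by
      refine (neg_le_abs _).trans ?_
      rw [abs_mul]
      gcongr
    linarith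
  calc omega u w ≤ ∑ _i : Fin n, 2 * (‖u‖ * ‖w‖) := Finset.sum_le_sum fun i _ => h i
    _ = 2 * n * (‖u‖ * ‖w‖) := by
      rw [Finset.sum_const, Finset.card_univ, Fintype.card_fin, nsmul_eq_mul]; ring

theorem lower (φ : SympCt n) {M : ℝ} (hM : ∀ x, ‖fderiv ℝ φ.toEquiv x‖ ≤ M) (x v : R2 n) :
    ‖v‖ ≤ 2 * n * M * ‖fderiv ℝ φ.toEquiv x v‖ := by
  by_cases hv : v = 0
  · rw [hv, norm_zero, map_zero, norm_zero, mul_zero]
  have hp : 0 < ‖v‖ := norm_pos_iff.2 hv
  set w : R2 n := (-v.2, v.1) with hw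
  have hwn : ‖w‖ = ‖v‖ := by
    rw [hw, Prod.norm_def, Prod.norm_def, norm_neg, max_comm]
  have h1 : nq v = omega v w := by
    unfold nq omega
    refine Finset.sum_congr rfl fun i _ => ?_
    simp only [hw, Pi.neg_apply]
    ring
  have h2 := omega_le (fderiv ℝ φ.toEquiv x v) (fderiv ℝ φ.toEquiv x w)
  rw [φ.symplectic, ← h1] at h2
  have h3 := norm_sq_le v
  have h4 : ‖fderiv ℝ φ.toEquiv x w‖ ≤ M * ‖v‖ := by
    refine ((fderiv ℝ φ.toEquiv x).le_opNorm w).trans ?_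
    rw [hwn]
    exact mul_le_mul_of_nonneg_right (hM x) hp.le
  have h5 : ‖v‖ ^ 2 ≤ 2 * n * (‖fderiv ℝ φ.toEquiv x v‖ * (M * ‖v‖)) := by
    refine h3.trans (h2.trans ?_)
    gcongr
  have h6 : ‖v‖ * ‖v‖ ≤ (2 * n * M * ‖fderiv ℝ φ.toEquiv x v‖) * ‖v‖ := by nlinarith
  exact le_of_mul_le_mul_right h6 hp

/-- finitely many classes -/
theorem finite_classes (n : ℕ) {L : ℝ} (hL : 0 ≤ L) : ∃ S : Finset (SympCt n), ∀ φ : SympCt n,
    φ ∈ supportedIn (Metric.closedBall (0 : R2 n) 1) → DL L φ → ∃ ψ ∈ S, Joined φ ψ := by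
  classical
  set I := ContinuousLinearMap.id ℝ (R2 n) with hI
  obtain ⟨ε, hε, hε2⟩ : ∃ ε : ℝ, 0 < ε ∧ (2 * (L + 1) * ε) * (2 * n * (L + 1)) < 1 := by
    refine ⟨1 / (8 * (n + 1) * (L + 1) ^ 2), by positivity, ?_⟩
    have : 2 * (L + 1) * (1 / (8 * (n + 1) * (L + 1) ^ 2)) * (2 * n * (L + 1))
        = (n : ℝ) / (2 * (n + 1)) := by
      field_simp
      ring
    rw [this, div_lt_one (by positivity)]
    have : (0 : ℝ) ≤ n := Nat.cast_nonneg n
    linarith
  obtain ⟨X, -, hX, hXc⟩ := (isCompact_closedBall (0 : R2 n) 1).finite_cover_balls hε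
  obtain ⟨Y, -, hY, hYc⟩ := (isCompact_closedBall I L).finite_cover_balls hε
  have : Finite X := hX
  have : Finite Y := hY
  have : Fintype (X → Y) := Fintype.ofFinite _
  let P : SympCt n → Prop := fun φ => φ ∈ supportedIn (Metric.closedBall (0 : R2 n) 1) ∧ DL L φ
  let R : SympCt n → (X → Y) → Prop := fun φ c => ∀ x : X, ‖fderiv ℝ φ.toEquiv x - c x‖ < ε
  let s : (X → Y) → SympCt n := fun c => if h : ∃ φ, P φ ∧ R φ c then h.choose else one
  refine ⟨Finset.univ.image s, fun φ h1 h2 => ?_⟩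
  have hc : ∃ c, R φ c := by
    have : ∀ x : X, ∃ y : Y, ‖fderiv ℝ φ.toEquiv x - y‖ < ε := by
      intro x
      have h3 : fderiv ℝ φ.toEquiv x ∈ Metric.closedBall I L := by
        rw [mem_closedBall_iff_norm]
        exact near_id hL h1 h2 _
      have h4 := hYc h3
      simp only [Set.mem_iUnion, exists_prop] at h4
      obtain ⟨y, hy, h5⟩ := h4
      exact ⟨⟨y, hy⟩, by rwa [mem_ball_iff_norm] at h5⟩
    choose c hc using this
    exact ⟨c, hc⟩
  obtain ⟨c, hc⟩ := hc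
  have hex : ∃ φ, P φ ∧ R φ c := ⟨φ, ⟨h1, h2⟩, hc⟩
  have hs : s c = hex.choose := dif_pos hex
  obtain ⟨⟨g1, g2⟩, g3⟩ := hex.choose_spec
  refine ⟨s c, Finset.mem_image_of_mem s (Finset.mem_univ c), ?_⟩
  rw [hs]
  generalize hex.choose = ψ at g1 g2 g3
  have hclose : ∀ z, ‖fderiv ℝ φ.toEquiv z - fderiv ℝ ψ.toEquiv z‖ ≤ 2 * (L + 1) * ε := by
    intro z
    by_cases hz : z ∈ Metric.ball (0 : R2 n) 1
    · have h4 := hXc (Metric.ball_subset_closedBall hz)
      simp only [Set.mem_iUnion, exists_prop] at h4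
      obtain ⟨x, hx, h5⟩ := h4
      rw [mem_ball_iff_norm] at h5
      have e1 := h2 z x
      have e2 := g2 x z
      have e3 := hc ⟨x, hx⟩
      have e4 := g3 ⟨x, hx⟩
      rw [norm_sub_rev] at e4
      have e5 : L * ‖z - x‖ ≤ L * ε := by gcongr
      have e6 : L * ‖x - z‖ ≤ L * ε := by rw [norm_sub_rev]; gcongr
      calc ‖fderiv ℝ φ.toEquiv z - fderiv ℝ ψ.toEquiv z‖
          = ‖((fderiv ℝ φ.toEquiv z - fderiv ℝ φ.toEquiv x)
            + (fderiv ℝ φ.toEquiv x - (c ⟨x, hx⟩ : R2 n →L[ℝ] R2 n)))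
            + (((c ⟨x, hx⟩ : R2 n →L[ℝ] R2 n) - fderiv ℝ ψ.toEquiv x)
            + (fderiv ℝ ψ.toEquiv x - fderiv ℝ ψ.toEquiv z))‖ := by congr 1; abel
        _ ≤ (L * ε + ε) + (ε + L * ε) := by
          refine (norm_add_le _ _).trans (add_le_add ?_ ?_)
          · exact (norm_add_le _ _).trans (add_le_add (e1.trans e5) e3.le)
          · exact (norm_add_le _ _).trans (add_le_add e4.le (e2.trans e6))
        _ = 2 * (L + 1) * ε := by ring
    · rw [(good_ball one_pos h1).2 z hz, (good_ball one_pos g1).2 z hz, sub_self, norm_zero]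
      positivity
  have hM : ∀ x, ‖fderiv ℝ ψ.toEquiv x‖ ≤ L + 1 := by
    intro x
    have h3 := near_id hL g1 g2 x
    have h4 : ‖I‖ ≤ 1 := ContinuousLinearMap.norm_id_le
    calc ‖fderiv ℝ ψ.toEquiv x‖ = ‖(fderiv ℝ ψ.toEquiv x - I) + I‖ := by congr 1; abel
      _ ≤ L + 1 := (norm_add_le _ _).trans (add_le_add h3 h4)
  have hno : NoOpp φ ψ := by
    intro x v hv a ha he
    have h3 := lower ψ hM x v
    have h4 := (fderiv ℝ φ.toEquiv x - fderiv ℝ ψ.toEquiv x).le_opNorm v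
    have h5 : (fderiv ℝ φ.toEquiv x - fderiv ℝ ψ.toEquiv x) v
        = -((a + 1) • fderiv ℝ ψ.toEquiv x v) := by
      change fderiv ℝ φ.toEquiv x v - fderiv ℝ ψ.toEquiv x v = _
      rw [he, add_smul, one_smul]
      abel
    rw [h5, norm_neg, norm_smul, Real.norm_eq_abs, abs_of_pos (by linarith)] at h4
    have h6 := hclose x
    have hp : 0 < ‖v‖ := norm_pos_iff.2 hv
    set t := ‖fderiv ℝ ψ.toEquiv x v‖ with ht
    have ht0 : 0 < t := by
      by_contra hcon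
      have : t = 0 := le_antisymm (not_lt.1 hcon) (norm_nonneg _)
      rw [this, mul_zero] at h3
      linarith
    have h7 : t ≤ 2 * (L + 1) * ε * ‖v‖ := by
      have : t ≤ (a + 1) * t := by nlinarith
      refine this.trans (h4.trans ?_)
      gcongr
    have h8 : t ≤ (2 * (L + 1) * ε) * (2 * n * (L + 1)) * t := by
      refine h7.trans ?_
      have : 2 * (L + 1) * ε * ‖v‖ ≤ 2 * (L + 1) * ε * (2 * n * (L + 1) * t) := by gcongr
      refine this.trans (le_of_eq (by ring))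
    nlinarith
  exact (NoOpp.joined hno).symm

end Pool.Agent.U731.SC
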