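import Pool.Agent.U731.SC.B

set_option autoImplicit false
set_option linter.unusedSectionVars false

/-! Packing representatives into small cubes. -/

open scoped ContDiff Topology

namespace Pool.Agent.U731.SC

open Pool.Agent.W71.EC Pool.Agent.W5h83.HG Pool.Agent.U530.HG

variable {n : ℕ}

/-- `φ` is isotopic to a map supported in the unit cube whose differential is `L`-Lipschitz -/
def Cpx (L : ℝ) (φ : SympCt n) : Prop :=
  ∃ ψ : SympCt n, Joined φ ψ ∧ ψ ∈ supportedIn (Metric.closedBall (0 : R2 n) 1) ∧ DL L ψ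

/-- indices of the small cubes -/
abbrev Idx (n m : ℕ) : Type := (Fin n → Fin m) × (Fin n → Fin m)

/-- centres of the small cubes -/
noncomputable def ctr {m : ℕ} (k : Idx n m) : R2 n :=
  (fun i => -1 + (2 * (k.1 i : ℝ) + 1) / m, fun i => -1 + (2 * (k.2 i : ℝ) + 1) / m)

theorem ctr_sub {m : ℕ} (hm : 0 < m) {k k' : Idx n m} (h : k ≠ k') :
    2 / (m : ℝ) ≤ ‖ctr k - ctr k'‖ := by
  have hm' : (0 : ℝ) < m := by exact_mod_cast hm
  have hfin : ∀ a b : Fin m, a ≠ b → (1 : ℝ) ≤ |(a : ℝ) - (b : ℝ)| := by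
    intro a b hab
    have h1 : ((a : ℕ) : ℤ) - (b : ℕ) ≠ 0 := by
      intro h2
      apply hab
      apply Fin.ext
      omega
    have h2 : (1 : ℤ) ≤ |((a : ℕ) : ℤ) - (b : ℕ)| := Int.one_le_abs h1
    exact_mod_cast h2
  have hstep : ∀ a b : Fin m, a ≠ b →
      2 / (m : ℝ) ≤ |(-1 + (2 * (a : ℝ) + 1) / m) - (-1 + (2 * (b : ℝ) + 1) / m)| := by
    intro a b hab
    have e : (-1 + (2 * (a : ℝ) + 1) / m) - (-1 + (2 * (b : ℝ) + 1) / m)
        = 2 / m * ((a : ℝ) - b) := by
      field_simp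
      ring
    rw [e, abs_mul, abs_of_pos (by positivity)]
    have := hfin a b hab
    have h3 : (0 : ℝ) < 2 / m := by positivity
    nlinarith
  by_cases h1 : k.1 = k'.1
  · have h2 : k.2 ≠ k'.2 := fun h2 => h (Prod.ext h1 h2)
    obtain ⟨i, hi⟩ := Function.ne_iff.1 h2
    refine (hstep _ _ hi).trans ?_
    refine le_trans ?_ (norm_snd_le (ctr k - ctr k'))
    exact norm_le_pi_norm (ctr k - ctr k').2 i
  · obtain ⟨i, hi⟩ := Function.ne_iff.1 h1
    refine (hstep _ _ hi).trans ?_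
    refine le_trans ?_ (norm_fst_le (ctr k - ctr k'))
    exact norm_le_pi_norm (ctr k - ctr k').1 i

theorem ctr_ball {m : ℕ} (hm : 0 < m) (k : Idx n m) :
    Metric.ball (ctr k) (1 / (m : ℝ)) ⊆ Metric.closedBall (0 : R2 n) 1 := by
  have hm' : (0 : ℝ) < m := by exact_mod_cast hm
  have hb : ∀ a : Fin m, |-1 + (2 * (a : ℝ) + 1) / m| ≤ 1 - 1 / m := by
    intro a
    have h1 : (0 : ℝ) ≤ a := Nat.cast_nonneg _
    have h2 : (a : ℝ) + 1 ≤ m := by exact_mod_cast a.2
    rw [abs_le]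
    constructor
    · have : (1 : ℝ) / m ≤ (2 * (a : ℝ) + 1) / m := by gcongr; linarith
      linarith
    · have : (2 * (a : ℝ) + 1) / m ≤ (2 * m - 1) / m := by gcongr; linarith
      have e : (2 * (m : ℝ) - 1) / m = 2 - 1 / m := by field_simp
      linarith
  have hm1 : (0 : ℝ) ≤ 1 - 1 / m := by
    have : (1 : ℝ) ≤ m := by exact_mod_cast hm
    have : 1 / (m : ℝ) ≤ 1 := by rw [div_le_one hm']; exact this
    linarith
  have hc : ‖ctr k‖ ≤ 1 - 1 / m := by
    rw [Prod.norm_def, max_le_iff]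
    exact ⟨(pi_norm_le_iff_of_nonneg hm1).2 fun i => hb _,
      (pi_norm_le_iff_of_nonneg hm1).2 fun i => hb _⟩
  intro z hz
  rw [mem_ball_iff_norm] at hz
  rw [mem_closedBall_zero_iff]
  calc ‖z‖ = ‖(z - ctr k) + ctr k‖ := by congr 1; abel
    _ ≤ 1 := by
      refine (norm_add_le _ _).trans ?_
      linarith

theorem disj {m : ℕ} (hm : 0 < m) {k k' : Idx n m} (h : k ≠ k') :
    Disjoint (Metric.ball (ctr k) (1 / (m : ℝ))) (Metric.ball (ctr k') (1 / (m : ℝ))) := by
  apply Metric.ball_disjoint_ball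
  rw [dist_eq_norm]
  have := ctr_sub hm h
  have e : 1 / (m : ℝ) + 1 / m = 2 / m := by ring
  rwa [e]

theorem one_DL {L : ℝ} (hL : 0 ≤ L) : DL L (one : SympCt n) := by
  intro x y
  have h : fderiv ℝ (one : SympCt n).toEquiv x = fderiv ℝ (one : SympCt n).toEquiv y :=
    ContinuousLinearMap.ext fun v => by rw [one_fderiv, one_fderiv]
  rw [h, sub_self, norm_zero]
  positivity

theorem one_good (U : Set (R2 n)) : Good U (one : SympCt n) :=
  ⟨fun _ _ => rfl, fun z _ => ContinuousLinearMap.ext fun v => one_fderiv z v⟩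

theorem inv_pos' {m : ℕ} (hm : 0 < m) : (0 : ℝ) < 1 / m := by
  have : (0 : ℝ) < m := by exact_mod_cast hm
  positivity

theorem grid {m : ℕ} (hm : 0 < m) {L : ℝ} (hL : 0 ≤ L) (l : List (SympCt n × Idx n m))
    (h : ∀ q ∈ l, q.1 ∈ supportedIn (Metric.closedBall (0 : R2 n) 1) ∧ DL L q.1)
    (hnd : (l.map Prod.snd).Nodup) :
    ∃ Ψ : SympCt n, Joined ((l.map Prod.fst).foldr comp one) Ψ ∧
      Good (⋃ q ∈ l, Metric.ball (ctr q.2) (1 / (m : ℝ))) Ψ ∧ DL (m * L) Ψ := by
  have hm' : (0 : ℝ) < m := by exact_mod_cast hm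
  induction l with
  | nil =>
    exact ⟨one, Joined.refl _, one_good _, one_DL (by positivity)⟩
  | cons q l ih =>
    rw [List.map_cons, List.nodup_cons] at hnd
    obtain ⟨Ψ, h1, h2, h3⟩ := ih (fun q' hq' => h q' (List.mem_cons_of_mem _ hq')) hnd.2
    obtain ⟨g1, g2⟩ := h q List.mem_cons_self
    have hr := inv_pos' hm
    have hr1 : 1 / (m : ℝ) ≤ 1 := by
      rw [div_le_one hm']
      exact_mod_cast hm
    set χ := conjH q.1 (ctr q.2) (1 / (m : ℝ)) hr.ne' with hχ
    have c1 : Good (Metric.ball (ctr q.2) (1 / (m : ℝ))) χ := by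
      apply good_ball hr
      have := conjH_supp g1 (ctr q.2) hr
      rwa [mul_one] at this
    have c2 : DL (m * L) χ := by
      have := conj_DL g2 (ctr q.2) hr
      have e : L / (1 / (m : ℝ)) = m * L := by field_simp
      rwa [e] at this
    have hd : Disjoint (Metric.ball (ctr q.2) (1 / (m : ℝ)))
        (⋃ q' ∈ l, Metric.ball (ctr q'.2) (1 / (m : ℝ))) := by
      rw [Set.disjoint_iUnion₂_right]
      intro q' hq'
      apply disj hm
      intro he
      exact hnd.1 (List.mem_map.2 ⟨q', hq', he.symm⟩)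
    have hopen : IsOpen (⋃ q' ∈ l, Metric.ball (ctr q'.2) (1 / (m : ℝ))) :=
      isOpen_biUnion fun _ _ => Metric.isOpen_ball
    refine ⟨comp χ Ψ, ?_, ?_, comp_DL Metric.isOpen_ball hopen c1 h2 hd c2 h3⟩
    · rw [List.map_cons, List.foldr_cons]
      exact joined_comp (joined_conjH q.1 (ctr q.2) hr hr1) h1
    · have e : (⋃ q' ∈ q :: l, Metric.ball (ctr q'.2) (1 / (m : ℝ)))
          = Metric.ball (ctr q.2) (1 / (m : ℝ)) ∪
            ⋃ q' ∈ l, Metric.ball (ctr q'.2) (1 / (m : ℝ)) := by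
        ext z
        simp [List.mem_cons]
      rw [e]
      exact comp_good c1 h2 hd

theorem cpx_mono {L L' : ℝ} (h : L ≤ L') {φ : SympCt n} (hφ : Cpx L φ) : Cpx L' φ := by
  obtain ⟨ψ, h1, h2, h3⟩ := hφ
  refine ⟨ψ, h1, h2, fun x y => (h3 x y).trans ?_⟩
  gcongr

/-- the product of at most `m ^ (2 n)` classes of complexity `L` has complexity `m L` -/
theorem cpx_prod {m : ℕ} {L : ℝ} (hL : 0 ≤ L) (l : List (SympCt n)) (hl : l.length ≤ m ^ (2 * n))
    (h : ∀ φ ∈ l, Cpx L φ) : Cpx (m * L) (l.foldr comp one) := by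
  classical
  rcases Nat.eq_zero_or_pos m with hm | hm
  · -- `m = 0`
    subst hm
    rcases Nat.eq_zero_or_pos n with hn | hn
    · subst hn
      have e : l.foldr comp one = (one : SympCt 0) :=
        SympCt.ext' fun p => Subsingleton.elim _ _
      rw [e]
      exact ⟨one, Joined.refl _, fun _ _ => rfl, one_DL (by positivity)⟩
    · have h0 : l.length = 0 := by
        have : 0 ^ (2 * n) = 0 := zero_pow (by omega)
        omega
      rw [List.length_eq_zero_iff.1 h0]
      exact ⟨one, Joined.refl _, fun _ _ => rfl, one_DL (by positivity)⟩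
  have hcard : Fintype.card (Fin l.length) ≤ Fintype.card (Idx n m) := by
    rw [Fintype.card_fin, Fintype.card_prod, Fintype.card_fun, Fintype.card_fin, Fintype.card_fin]
    rw [two_mul, pow_add] at hl
    exact hl
  obtain ⟨e⟩ := Function.Embedding.nonempty_of_card_le hcard
  have h' : ∀ i : Fin l.length, Cpx L (l.get i) := fun i => h _ (List.get_mem l i)
  choose ψ h1 h2 h3 using h'
  set l' : List (SympCt n × Idx n m) := List.ofFn fun i => (ψ i, e i) with hl'
  obtain ⟨Ψ, g1, g2, g3⟩ := grid hm hL l' (by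
    intro q hq
    rw [hl', List.mem_ofFn] at hq
    obtain ⟨i, rfl⟩ := hq
    exact ⟨h2 i, h3 i⟩) (by
    rw [hl', List.map_ofFn]
    exact List.nodup_ofFn.2 e.injective)
  refine ⟨Ψ, ?_, ?_, g3⟩
  · refine Joined.trans ?_ g1
    have e1 : l'.map Prod.fst = List.ofFn ψ := by
      rw [hl', List.map_ofFn]
      rfl
    rw [e1]
    have key : ∀ (N : ℕ) (a b : Fin N → SympCt n), (∀ i, Joined (a i) (b i)) →
        Joined ((List.ofFn a).foldr comp one) ((List.ofFn b).foldr comp one) := by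
      intro N
      induction N with
      | zero => intro a b _; simpa using Joined.refl _
      | succ N ih =>
        intro a b hab
        rw [List.ofFn_succ, List.ofFn_succ, List.foldr_cons, List.foldr_cons]
        exact joined_comp (hab 0) (ih _ _ fun i => hab i.succ)
    have e2 : l = List.ofFn l.get := (List.ofFn_get l).symm
    have := key l.length l.get ψ h1
    rwa [← e2] at this
  · intro z hz
    apply g2.1 z
    intro hz'
    rw [Set.mem_iUnion₂] at hz'
    obtain ⟨q, _, hq⟩ := hz'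
    exact hz (ctr_ball hm q.2 hq)

theorem exists_DL (φ : SympCt n) : ∃ L : ℝ, 0 ≤ L ∧ DL L φ := by
  obtain ⟨r, hr, h⟩ := Pool.Agent.W71.EC.exists_ball φ
  set F : R2 n → (R2 n →L[ℝ] R2 n) := fun x => fderiv ℝ φ.toEquiv x
    - ContinuousLinearMap.id ℝ (R2 n) with hF
  have hs : HasCompactSupport F := by
    refine HasCompactSupport.intro (isCompact_closedBall (0 : R2 n) r) fun x hx => ?_
    have h1 : (φ.toEquiv : R2 n → R2 n) =ᶠ[𝓝 x] id := by
      filter_upwards [Metric.isClosed_closedBall.isOpen_compl.mem_nhds hx] with y hy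
      exact h y hy
    rw [hF]
    change fderiv ℝ φ.toEquiv x - _ = 0
    rw [h1.fderiv_eq, fderiv_id, sub_self]
  have hc : ContDiff ℝ 1 F := by
    refine ContDiff.sub ?_ contDiff_const
    exact φ.smooth.fderiv_right (by norm_cast)
  obtain ⟨C, hC⟩ := hc.lipschitzWith_of_hasCompactSupport hs one_ne_zero
  refine ⟨C, C.2, fun x y => ?_⟩
  have := hC.dist_le_mul x y
  rw [dist_eq_norm, dist_eq_norm] at this
  have e : F x - F y = fderiv ℝ φ.toEquiv x - fderiv ℝ φ.toEquiv y := by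
    rw [hF]
    change fderiv ℝ φ.toEquiv x - _ - (fderiv ℝ φ.toEquiv y - _) = _
    abel
  rwa [e] at this

theorem exists_cpx (φ : SympCt n) : ∃ L : ℝ, 0 ≤ L ∧ Cpx L φ := by
  obtain ⟨r, hr, h⟩ := Pool.Agent.W71.EC.exists_ball φ
  obtain ⟨L, hL, hD⟩ := exists_DL φ
  have hl : 0 < 1 / (r + 1) := by positivity
  have hl1 : 1 / (r + 1) ≤ 1 := by rw [div_le_one (by linarith)]; linarith
  refine ⟨L / (1 / (r + 1)), by positivity, conjH φ 0 (1 / (r + 1)) hl.ne',
    joined_conjH φ 0 hl hl1, ?_, conj_DL hD 0 hl⟩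
  refine Pool.Agent.W71.EC.supp_mono (Metric.closedBall_subset_closedBall ?_) (conjH_supp h 0 hl)
  rw [one_div, inv_mul_eq_div, div_le_one (by linarith)]
  linarith

theorem gap {φ : SympCt n} {L : ℝ} (hL1 : L < 1) (h : Cpx L φ) : Joined one φ := by
  obtain ⟨ψ, h1, h2, h3⟩ := h
  have h4 : Joined one ψ := by
    refine joined_of_small (L := max L 0) (le_max_right _ _) (max_lt hL1 one_pos) h2 ?_
    intro x y
    refine (h3 x y).trans ?_
    gcongr
    exact le_max_left _ _
  exact h4.trans h1.symm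

theorem finite_cpx (n : ℕ) (L : ℝ) : ∃ S : Finset (SympCt n), ∀ φ : SympCt n, Cpx L φ →
    ∃ ψ ∈ S, Joined φ ψ := by
  obtain ⟨S, hS⟩ := finite_classes n (L := max L 0) (le_max_right _ _)
  refine ⟨S, fun φ hφ => ?_⟩
  obtain ⟨ψ, h1, h2, h3⟩ := cpx_mono (le_max_left L 0) hφ
  obtain ⟨χ, h4, h5⟩ := hS ψ h2 h3
  exact ⟨χ, h4, h1.trans h5⟩

end Pool.Agent.U731.SC
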